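import Mathlib
import Pool.Agent.H.MP_0dd7b8_al.B

namespace Pool.Agent.Results.MP_0dd7b8_al.Yes

open Function Equiv Pool.Agent.H.MP_5b0e2c_al Pool.Agent.H.MP_0dd7b8_al

/-- 4-tournament: the automorphism group of every 4-element substructure is `A₄` -/
def Tour {M : Type} (R : (Fin 4 → M) → Prop) : Prop :=
  (∀ z, R z → Injective z) ∧ ∀ z, Injective z → ∀ σ : Perm (Fin 4),
    (∀ w : Fin 4 → Fin 4, R (z ∘ σ ∘ w) ↔ R (z ∘ w)) ↔ σ ∈ alternatingGroup (Fin 4)

/-- the coordinatewise map `a i ↦ b i` preserves both relations in both directions -/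
def Pres {κ Y M : Type} (HY : SimpleGraph Y) (RY : (Fin 4 → Y) → Prop) (H : SimpleGraph M)
    (R : (Fin 4 → M) → Prop) (a : κ → Y) (b : κ → M) : Prop :=
  (∀ i j, HY.Adj (a i) (a j) ↔ H.Adj (b i) (b j)) ∧ ∀ w : Fin 4 → κ, RY (a ∘ w) ↔ R (b ∘ w)

/-- Fraisse limit of the finite structures (4-tournament, triangle-free graph) -/
def IsLimit {M : Type} (H : SimpleGraph M) (R : (Fin 4 → M) → Prop) : Prop :=
  Countable M ∧ H.CliqueFree 3 ∧ Tour R ∧
  (∀ A B : Set M, A.Finite → B.Finite → ∀ f : A ≃ B,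
    Pres H R H R (fun a : A => (a : M)) (fun a : A => (f a : M)) →
      ∃ e : M ≃ M, Pres H R H R id e ∧ ∀ a : A, e a = f a) ∧
  ∀ (Y : Type) [Finite Y] (HY : SimpleGraph Y) (RY : (Fin 4 → Y) → Prop), HY.CliqueFree 3 →
    Tour RY → ∃ f : Y → M, Injective f ∧ Pres HY RY H R id f

theorem tour_iff {M : Type} (R : (Fin 4 → M) → Prop) : Tour R ↔ Or4 R := by
  constructor
  · rintro ⟨h1, h2⟩
    have ev : ∀ z, Injective z → ∀ σ : Perm (Fin 4), Perm.sign σ = 1 → (R (z ∘ σ) ↔ R z) :=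
      fun z hz σ h => (h2 z hz σ).2 h id
    refine ⟨h1, fun z hz σ => ?_⟩
    by_cases hs : Perm.sign σ = 1
    · simp [hs, ev z hz σ hs]
    · have : ¬ (R (z ∘ σ) ↔ R z) := fun h => hs ((h2 z hz σ).1 (fun w => by
        by_cases hw : Injective w
        · let τ : Perm (Fin 4) := ofBijective w (Finite.injective_iff_bijective.1 hw)
          show R (z ∘ σ ∘ τ) ↔ R (z ∘ τ)
          by_cases ht : Perm.sign τ = 1
          · rw [ev z hz τ ht, ← h]
            exact ev (z ∘ σ) (hz.comp σ.injective) τ ht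
          · have a := ev z hz (σ * τ) (by rw [sg_mul]; tauto)
            have b := ev (z ∘ σ) (hz.comp σ.injective) (σ⁻¹ * τ) (by
              rw [sg_mul, Perm.sign_inv]; tauto)
            rw [show (z ∘ σ) ∘ (σ⁻¹ * τ : Perm (Fin 4)) = z ∘ τ from funext (by simp)] at b
            exact a.trans (b.trans h).symm
        · exact iff_of_false (fun h => hw (h1 _ h).of_comp.of_comp)
            (fun h => hw (h1 _ h).of_comp)))
      tauto
  · intro h
    refine ⟨h.inj, fun z hz σ => ⟨fun H => ?_, fun H w => ?_⟩⟩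
    · have a : R (z ∘ σ) ↔ R z := H id
      have b := h.alt z hz σ
      show Perm.sign σ = 1
      tauto
    · have H : Perm.sign σ = 1 := H
      exact (st4 (dY := fun _ _ => True) (dX := fun _ _ => True) h h (hz.comp σ.injective) hz
        (fun _ _ => rfl) (by rw [h.alt z hz σ]; tauto)).2 w

theorem tf_iff {M : Type} (H : SimpleGraph M) : H.CliqueFree 3 ↔ TF H.Adj := by
  classical
  constructor
  · intro h
    exact ⟨fun _ _ => H.adj_symm, fun _ => H.irrefl, fun x y z a b c =>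
      h {x, y, z} (SimpleGraph.is3Clique_triple_iff.2 ⟨a, c.symm, b⟩)⟩
  · intro h s hs
    obtain ⟨x, y, z, a, b, c, -⟩ := SimpleGraph.is3Clique_iff.1 hs
    exact h.tri _ _ _ a c b.symm

theorem result : ∃ (M : Type) (H : SimpleGraph M) (R : (Fin 4 → M) → Prop), IsLimit H R ∧
    ∃ (G : Type) (_ : Group G) (_ : MulAction G M),
      (∀ g : G, Pres H R H R id (fun x => g • x)) ∧
      ∀ a b : Fin 4 → M, Injective a → Injective b → Pres H R H R a b →
        ∃! g : G, ∀ i, g • a i = b i := by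
  obtain ⟨L, hI, hM, hE, hS⟩ := Pool.Agent.H.MP_0dd7b8_al.main
  let H : SimpleGraph L.X := ⟨L.d, ⟨hM.1.symm⟩, ⟨hM.1.irr⟩⟩
  refine ⟨L.X, H, L.R, ⟨inferInstance, (tf_iff H).2 hM.1, (tour_iff _).2 hM.2,
    fun A B hA _ f h => ?_, fun Y _ HY RY h1 h2 => ?_⟩, L.G, inferInstance, inferInstance,
    fun g => ⟨fun x y => (hI.1 g x y).symm.to_iff, fun w => (hI.2 g w).symm⟩,
    fun a b ha hb h => hS a b ha ⟨fun i j => ⟨propext (h.1 i j), ha.eq_iff.trans hb.eq_iff.symm⟩,
      h.2⟩⟩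
  · have := hA.to_subtype
    obtain ⟨e, h1, h2, h3⟩ := ultra pull4 hM hE (a := fun a : A => (a : L.X))
      (b := fun a : A => (f a : L.X)) ⟨fun i j => ⟨propext (h.1 i j), by
        simp only [Subtype.val_inj, f.apply_eq_iff_eq]⟩, h.2⟩
    exact ⟨e, ⟨fun x y => (h2 x y).symm.to_iff, fun w => (h3 w).symm⟩, h1⟩
  · obtain ⟨f, hf⟩ := univ (dY := HY.Adj) (RY := RY) pull4 ⟨(tf_iff _).1 h1, (tour_iff _).1 h2⟩ hE
    exact ⟨f, hf.inj injective_id, fun i j => (hf.1 i j).1.to_iff, hf.2⟩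

end Pool.Agent.Results.MP_0dd7b8_al.Yes
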